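import Pool.Agent.V11216.CoX

/-!
# MP_8dcd4d_gt : a co-consonant space whose Smyth powerspace is not co-consonant
-/

set_option autoImplicit false

namespace Pool.Agent.Results.MP_8dcd4d_gt.SmythNotCoConsonant

open Set TopologicalSpace Pool.Agent.V11216.CoCons Pool.Agent.V11216.CoX Pool.Agent.V11216.CoX.Pt

/-- `□ U` -/
def Bx (U : Set Pt) : Set (Smyth Pt) := {K | K.1 ⊆ U}

theorem isOpen_Bx {U : Set Pt} (hU : IsOpen U) : IsOpen (Bx U) := Smyth.isOpen_box hU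

/-- the saturation of a pair -/
def pr (x y : Pt) : Smyth Pt := ⟨⋂₀ {U : Set Pt | IsOpen U ∧ {x, y} ⊆ U},
  ⟨x, fun _ h => h.2 (Or.inl rfl)⟩, by
    rw [isCompact_iff_finite_subcover]
    intro ι U hU hc
    have h0 : ({x, y} : Set Pt) ⊆ ⋂₀ {U : Set Pt | IsOpen U ∧ {x, y} ⊆ U} :=
      subset_sInter fun _ h => h.2
    have hfin : IsCompact ({x, y} : Set Pt) := (Set.toFinite _).isCompact
    obtain ⟨t, ht⟩ := hfin.elim_finite_subcover U hU (h0.trans hc)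
    exact ⟨t, sInter_subset_of_mem ⟨isOpen_biUnion fun i _ => hU i, ht⟩⟩,
  Subset.antisymm (subset_sInter fun _ h => h.2) (subset_sInter fun V hV =>
    sInter_subset_of_mem ⟨hV.1, sInter_subset_of_mem hV⟩)⟩

theorem pr_mem_Bx {x y : Pt} {U : Set Pt} (hU : IsOpen U) : pr x y ∈ Bx U ↔ x ∈ U ∧ y ∈ U := by
  have h0 : ({x, y} : Set Pt) ⊆ (pr x y).1 := subset_sInter fun _ h => h.2
  constructor
  · intro h
    exact ⟨h (h0 (Or.inl rfl)), h (h0 (Or.inr rfl))⟩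
  · rintro ⟨hx, hy⟩
    refine sInter_subset_of_mem ⟨hU, ?_⟩
    rintro w (hw | hw)
    · rw [show w = x from hw]; exact hx
    · rw [show w = y from hw]; exact hy

theorem continuous_pr (x : Pt) : Continuous (pr x) := by
  rw [continuous_generateFrom_iff]
  rintro _ ⟨U, hU, rfl⟩
  change IsOpen {y | pr x y ∈ Bx U}
  by_cases hx : x ∈ U
  · have h1 : {y | pr x y ∈ Bx U} = U := by
      ext y
      simp [pr_mem_Bx hU, hx]
    rw [h1]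
    exact hU
  · have h1 : {y | pr x y ∈ Bx U} = ∅ := by
      ext y
      simp [pr_mem_Bx hU, hx]
    rw [h1]
    exact isOpen_empty

/-- The family. -/
def Fam : Set (Set (Smyth Pt)) := {W | IsOpen W ∧ pr a z ∈ W ∧ pr b zS ∈ W ∧
  ∀ i, ∃ (g : ℕ → ℕ) (j : ℕ), j ≤ g i ∧ pr a (d g) ∈ W ∧ pr b (s i j) ∈ W}

theorem scottFam : ScottFam Fam := by
  refine ⟨fun U hU => hU.1, fun U hU V hV hUV => ⟨hV, hUV hU.2.1, hUV hU.2.2.1, fun i => ?_⟩, ?_⟩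
  · obtain ⟨g, j, hj, h1, h2⟩ := hU.2.2.2 i
    exact ⟨g, j, hj, hUV h1, hUV h2⟩
  rintro D - hdir hop ⟨-, ⟨U₁, hU₁, h1⟩, ⟨U₂, hU₂, h2⟩, h3⟩
  obtain ⟨U₀, hU₀, hU₁₀, hU₂₀⟩ := hdir U₁ hU₁ U₂ hU₂
  have hz1 := hU₁₀ h1
  have hz2 := hU₂₀ h2
  obtain ⟨n, hn⟩ := ((hop U₀ hU₀).preimage (continuous_pr a)).2.1 hz1
  choose f hf using ((hop U₀ hU₀).preimage (continuous_pr b)).2.2.2.2 hz2
  have key : ∀ k, ∃ U ∈ D, U₀ ⊆ U ∧ ∀ i < k, ∃ (g : ℕ → ℕ) (j : ℕ), j ≤ g i ∧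
      pr a (d g) ∈ U ∧ pr b (s i j) ∈ U := by
    intro k
    induction k with
    | zero => exact ⟨U₀, hU₀, subset_rfl, fun i hi => absurd hi (Nat.not_lt_zero i)⟩
    | succ k ih =>
      obtain ⟨U, hU, hsub, hUk⟩ := ih
      obtain ⟨g, j, hj, ⟨V₁, hV₁, hj1⟩, ⟨V₂, hV₂, hj2⟩⟩ := h3 k
      obtain ⟨V, hV, hV₁V, hV₂V⟩ := hdir V₁ hV₁ V₂ hV₂
      obtain ⟨V', hV', hVV', hUV'⟩ := hdir V hV U hU
      refine ⟨V', hV', hsub.trans hUV', fun i hi => ?_⟩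
      rcases Nat.lt_succ_iff_lt_or_eq.1 hi with hi | rfl
      · obtain ⟨g, j, hj, h5, h6⟩ := hUk i hi
        exact ⟨g, j, hj, hUV' h5, hUV' h6⟩
      · exact ⟨g, j, hj, hVV' (hV₁V hj1), hVV' (hV₂V hj2)⟩
  obtain ⟨U, hU, hsub, hUn⟩ := key n
  refine ⟨U, hU, hop U hU, hsub hz1, hsub hz2, fun i => ?_⟩
  rcases lt_or_ge i n with hi | hi
  · exact hUn i hi
  · refine ⟨fun i => if i < n then 0 else f i, f i, ?_, hsub (hn _ fun i hi => if_pos hi), hsub (hf i)⟩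
    change f i ≤ if i < n then 0 else f i
    rw [if_neg (not_lt.2 hi)]

/-- the open sets `U(h,p)` -/
def UU (h : ℕ → ℕ) (p : ℕ) : Set Pt := {a, z} ∪ (N p ∪ nb (d h))

theorem isOpen_UU (h : ℕ → ℕ) (p : ℕ) : IsOpen (UU h p) := by
  refine ⟨fun g g' hg h' => ?_, fun _ => ⟨p, fun g hg => Or.inr (Or.inl ⟨g, hg, rfl⟩)⟩, fun h' => ?_,
    fun i j j' _ h' => ?_, fun h' => ?_⟩
  · rcases h' with (h' | h') | ⟨g₀, h0, h'⟩ | h'
    · cases h'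
    · cases h'
    · cases h'
      exact Or.inr (Or.inl ⟨g', fun i hi => Nat.le_zero.1 ((hg i).trans (h0 i hi).le), rfl⟩)
    · exact Or.inr (Or.inr ((isOpen_nb (d h)).1 g g' hg h'))
  · rcases h' with ((h' | h') | ⟨_, _, h'⟩ | ⟨_, _, h'⟩) | ⟨_, _, (h' | h') | ⟨_, _, h'⟩ | ⟨_, _, h'⟩⟩ <;>
      cases h'
  · rcases h' with (h' | h') | ⟨_, _, h'⟩ | ⟨_, _, h'⟩ <;> cases h'
  · rcases h' with (h' | h') | ⟨_, _, h'⟩ | ⟨_, _, h'⟩ <;> cases h'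

/-- the open sets `V(c,p)` -/
def VV (c p : ℕ) : Set Pt := {b, zS} ∪ (range d ∪ {x | ∃ i j, (i = p → c ≤ j) ∧ x = s i j})

theorem isOpen_VV (c p : ℕ) : IsOpen (VV c p) := by
  refine ⟨fun g g' hg h' => Or.inr (Or.inl ⟨g', rfl⟩), fun h' => ?_, fun _ g => Or.inr (Or.inl ⟨g, rfl⟩),
    fun i j j' hj h' => ?_, fun _ i => ⟨c, Or.inr (Or.inr ⟨i, c, fun _ => le_rfl, rfl⟩)⟩⟩
  · rcases h' with (h' | h') | ⟨_, h'⟩ | ⟨_, _, _, h'⟩ <;> cases h'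
  · rcases h' with (h' | h') | ⟨_, h'⟩ | ⟨i₀, j₀, h0, h'⟩
    · cases h'
    · cases h'
    · cases h'
    · cases h'
      exact Or.inr (Or.inr ⟨i, j', fun hi => (h0 hi).trans hj, rfl⟩)

/-- the open set `{a, z} ∪ range d` -/
theorem isOpen_U₀ : IsOpen ({a, z} ∪ range d : Set Pt) := by
  refine ⟨fun g g' hg _ => Or.inr ⟨g', rfl⟩, fun _ => ⟨0, fun g _ => Or.inr ⟨g, rfl⟩⟩,
    fun _ g => Or.inr ⟨g, rfl⟩, fun i j j' _ h' => ?_, fun h' => ?_⟩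
  · rcases h' with (h' | h') | ⟨_, h'⟩ <;> cases h'
  · rcases h' with (h' | h') | ⟨_, h'⟩ <;> cases h'

/-- the open set `{b, zS} ∪ range d ∪ S` -/
theorem isOpen_V₀ : IsOpen ({b, zS} ∪ range d ∪ {x | ∃ i j, x = s i j} : Set Pt) := by
  refine ⟨fun g g' hg _ => Or.inl (Or.inr ⟨g', rfl⟩), fun h' => ?_, fun _ g => Or.inl (Or.inr ⟨g, rfl⟩),
    fun i j j' _ _ => Or.inr ⟨i, j', rfl⟩, fun _ i => ⟨0, Or.inr ⟨i, 0, rfl⟩⟩⟩
  rcases h' with ((h' | h') | ⟨_, h'⟩) | ⟨_, _, h'⟩ <;> cases h'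

/-- compact sets are generated by finite sets -/
theorem compact_finite {L U : Set Pt} (hL : IsCompact L) (hU : IsOpen U) (hLU : L ⊆ U) :
    ∃ E : Set Pt, E.Finite ∧ E ⊆ U ∧ ∀ V : Set Pt, IsOpen V → E ⊆ V → L ⊆ V := by
  have hF : ScottFam {V : Set Pt | IsOpen V ∧ L ⊆ V} := by
    refine ⟨fun V hV => hV.1, fun V hV W hW hVW => ⟨hW, hV.2.trans hVW⟩, ?_⟩
    rintro D hD hdir hop ⟨-, hLD⟩
    have : Nonempty D := hD.to_subtype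
    obtain ⟨V, hV⟩ := hL.elim_directed_cover (fun V : D => (V : Set Pt)) (fun V => hop V V.2)
      (by rwa [← sUnion_eq_iUnion]) (by
        rintro ⟨V, hV⟩ ⟨V', hV'⟩
        obtain ⟨V'', hV'', h1, h2⟩ := hdir V hV V' hV'
        exact ⟨⟨V'', hV''⟩, h1, h2⟩)
    exact ⟨V, V.2, hop V V.2, hV⟩
  obtain ⟨E, hE, hEU, hEF⟩ := coConsonant_iff.1 coConsonant _ hF U ⟨hU, hLU⟩
  exact ⟨E, hE, hEU, fun V hV hEV => (hEF V hV hEV).2⟩

/-- the function of a point -/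
def ga : Pt → (ℕ → ℕ)
  | d g => g
  | _ => 0

/-- the index of a point -/
def ka : Pt → ℕ
  | s i _ => i + 1
  | _ => 0

theorem not_coConsonant : ¬ CoConsonant (Smyth Pt) := by
  rw [coConsonant_iff]
  intro hall
  have hW₀ : (Bx ({a, z} ∪ range d) ∪ Bx ({b, zS} ∪ range d ∪ {x | ∃ i j, x = s i j})) ∈ Fam := by
    refine ⟨(isOpen_Bx isOpen_U₀).union (isOpen_Bx isOpen_V₀),
      Or.inl ((pr_mem_Bx isOpen_U₀).2 ⟨Or.inl (Or.inl rfl), Or.inl (Or.inr rfl)⟩),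
      Or.inr ((pr_mem_Bx isOpen_V₀).2 ⟨Or.inl (Or.inl (Or.inl rfl)), Or.inl (Or.inl (Or.inr rfl))⟩),
      fun i => ⟨0, 0, le_rfl, ?_, ?_⟩⟩
    · exact Or.inl ((pr_mem_Bx isOpen_U₀).2 ⟨Or.inl (Or.inl rfl), Or.inr ⟨0, rfl⟩⟩)
    · exact Or.inr ((pr_mem_Bx isOpen_V₀).2 ⟨Or.inl (Or.inl (Or.inl rfl)), Or.inr ⟨i, 0, rfl⟩⟩)
  obtain ⟨E, hE, hEW, hEF⟩ := hall Fam scottFam _ hW₀
  -- the bound `h`
  have h1 : ∀ L : Smyth Pt, ∃ g : ℕ → ℕ, L.1 ⊆ {a, z} ∪ range d → ∀ h ≥ g, ∀ p, L.1 ⊆ UU h p := by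
    intro L
    by_cases hL : L.1 ⊆ {a, z} ∪ range d
    · obtain ⟨E', hE', hEU, hEL⟩ := compact_finite L.2.2.1 isOpen_U₀ hL
      obtain ⟨g, hg⟩ := (hE'.image ga).bddAbove
      refine ⟨g, fun _ h hh p => hEL _ (isOpen_UU h p) fun x hx => ?_⟩
      rcases hEU hx with h' | ⟨g', rfl⟩
      · exact Or.inl h'
      · exact Or.inr (Or.inr ⟨g', le_trans (hg ⟨_, hx, rfl⟩) hh, rfl⟩)
    · exact ⟨0, fun h => absurd h hL⟩
  choose g hg using h1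
  obtain ⟨h, hh⟩ := (hE.image g).bddAbove
  have hh' : ∀ L ∈ E, g L ≤ h := fun L hL => hh ⟨L, hL, rfl⟩
  -- the bound `p`
  have h2 : ∀ L : Smyth Pt, ∃ q : ℕ, L.1 ⊆ ({b, zS} ∪ range d ∪ {x | ∃ i j, x = s i j}) →
      ∀ p ≥ q, ∀ c, L.1 ⊆ VV c p := by
    intro L
    by_cases hL : L.1 ⊆ ({b, zS} ∪ range d ∪ {x | ∃ i j, x = s i j})
    · obtain ⟨E', hE', hEU, hEL⟩ := compact_finite L.2.2.1 isOpen_V₀ hL
      obtain ⟨q, hq⟩ := (hE'.image ka).bddAbove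
      refine ⟨q, fun _ p hp c => hEL _ (isOpen_VV c p) fun x hx => ?_⟩
      rcases hEU hx with (h' | h') | ⟨i, j, rfl⟩
      · exact Or.inl h'
      · exact Or.inr (Or.inl h')
      · refine Or.inr (Or.inr ⟨i, j, fun hi => ?_, rfl⟩)
        have h3 : i + 1 ≤ q := hq ⟨_, hx, rfl⟩
        omega
    · exact ⟨0, fun h => absurd h hL⟩
  choose q hq using h2
  obtain ⟨p, hp⟩ := (hE.image q).bddAbove
  have hp' : ∀ L ∈ E, q L ≤ p := fun L hL => hp ⟨L, hL, rfl⟩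
  -- the bad open set
  have hWF := hEF (Bx (UU h (p + 1)) ∪ Bx (VV (h p + 1) p))
    ((isOpen_Bx (isOpen_UU _ _)).union (isOpen_Bx (isOpen_VV _ _))) (by
    intro L hL
    rcases hEW hL with h1 | h1
    · exact Or.inl (hg L h1 h (hh' L hL) _)
    · exact Or.inr (hq L h1 p (hp' L hL) _))
  obtain ⟨-, -, -, h4⟩ := hWF
  obtain ⟨g', j, hj, h5, h6⟩ := h4 p
  have h7 : g' p ≤ h p := by
    rcases h5 with h5 | h5
    · rcases ((pr_mem_Bx (isOpen_UU _ _)).1 h5).2 with (h5 | h5) | ⟨g₀, h0, h5⟩ | ⟨g₀, h0, h5⟩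
      · cases h5
      · cases h5
      · cases h5
        rw [h0 p (Nat.lt_succ_self p)]
        exact Nat.zero_le _
      · cases h5
        exact h0 p
    · rcases ((pr_mem_Bx (isOpen_VV _ _)).1 h5).1 with (h5 | h5) | ⟨_, h5⟩ | ⟨_, _, _, h5⟩ <;> cases h5
  have h8 : h p + 1 ≤ j := by
    rcases h6 with h6 | h6
    · rcases ((pr_mem_Bx (isOpen_UU _ _)).1 h6).1 with (h6 | h6) | ⟨_, _, h6⟩ | ⟨_, _, h6⟩ <;> cases h6
    · rcases ((pr_mem_Bx (isOpen_VV _ _)).1 h6).2 with (h6 | h6) | ⟨_, h6⟩ | ⟨i₀, j₀, h0, h6⟩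
      · cases h6
      · cases h6
      · cases h6
      · cases h6
        exact h0 rfl
  omega

/-- There is a co-consonant `T₀` space whose Smyth powerspace is not co-consonant. -/
theorem result : ∃ (X : Type) (_ : TopologicalSpace X), T0Space X ∧ CoConsonant X ∧
    ¬ CoConsonant (Smyth X) :=
  ⟨Pt, inferInstance, inferInstance, coConsonant, not_coConsonant⟩

end Pool.Agent.Results.MP_8dcd4d_gt.SmythNotCoConsonant
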